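import Pool.Agent.helper34.AC.Spec3

set_option autoImplicit false

open Filter Topology

namespace Pool.Agent.helper34.AC

theorem TAY_ww (n : ℕ) : ww (n + 3) = yy (n + 2) - yy (n + 3) := by
  unfold ww yy
  have e1 : n + 3 - 1 = n + 2 := by omega
  have e2 : n + 3 - 2 = n + 1 := by omega
  have e3 : n + 3 - 3 = n := by omega
  have e4 : n + 2 - 1 = n + 1 := by omega
  have e5 : n + 2 - 2 = n := by omega
  rw [e1, e2, e3, e4, e5]
  ring

theorem TAY_yy (n : ℕ) : yy (n + 2) = xx (n + 1) - xx (n + 2) := by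
  unfold xx yy
  have e1 : n + 2 - 1 = n + 1 := by omega
  have e2 : n + 2 - 2 = n := by omega
  have e3 : n + 1 - 1 = n := by omega
  rw [e1, e2, e3]
  ring

theorem TAY_xx (n : ℕ) : xx (n + 1) = gb (n + 1) - gb n := by
  unfold xx
  rw [Nat.add_sub_cancel]

theorem TAY_A (m : ℕ) (K : ℝ) : ∀ i : ℕ, i + 2 ≤ m → (∀ l < i, |ww (m - l)| ≤ K) →
    |yy (m - i) - yy m| ≤ i * K := by
  intro i
  induction i with
  | zero => intro _ _; simp
  | succ i ih =>
    intro hi hw
    have h1 := ih (by omega) (fun l hl => hw l (by omega))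
    have h2 := hw i (by omega)
    obtain ⟨n, hn⟩ : ∃ n, m = i + (n + 3) := ⟨m - i - 3, by omega⟩
    have e1 : m - i = n + 3 := by omega
    have e2 : m - (i + 1) = n + 2 := by omega
    rw [e1, TAY_ww] at h2
    rw [e1] at h1
    rw [e2]
    have h3 : yy (n + 2) - yy m = (yy (n + 3) - yy m) + (yy (n + 2) - yy (n + 3)) := by ring
    rw [h3]
    refine (abs_add_le _ _).trans ?_
    push_cast
    linarith

theorem TAY_B (m : ℕ) (K : ℝ) : ∀ j : ℕ, j + 1 ≤ m → (∀ l, l + 2 ≤ j → |ww (m - l)| ≤ K) →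
    |xx (m - j) - xx m - j * yy m| ≤ (j.choose 2 : ℝ) * K := by
  intro j
  induction j with
  | zero => intro _ _; simp
  | succ j ih =>
    intro hj hw
    have h1 := ih (by omega) (fun l hl => hw l (by omega))
    have h2 := TAY_A m K j (by omega) (fun l hl => hw l (by omega))
    obtain ⟨n, hn⟩ : ∃ n, m = j + (n + 2) := ⟨m - j - 2, by omega⟩
    have e1 : m - j = n + 2 := by omega
    have e2 : m - (j + 1) = n + 1 := by omega
    rw [e1, TAY_yy] at h2
    rw [e1] at h1
    rw [e2]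
    have h3 : xx (n + 1) - xx m - ((j + 1 : ℕ) : ℝ) * yy m =
        (xx (n + 2) - xx m - j * yy m) + (xx (n + 1) - xx (n + 2) - yy m) := by
      push_cast
      ring
    rw [h3]
    refine (abs_add_le _ _).trans ?_
    have h4 : (((j + 1).choose 2 : ℕ) : ℝ) = (j : ℝ) + (j.choose 2 : ℝ) := by
      rw [Nat.choose_succ_succ' j 1, Nat.choose_one_right]
      push_cast
      ring
    rw [h4]
    linarith

theorem TAY_C (m : ℕ) (K : ℝ) : ∀ t : ℕ, t ≤ m → (∀ l, l + 3 ≤ t → |ww (m - l)| ≤ K) →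
    |gb m - gb (m - t) - (t : ℝ) * xx m - (t.choose 2 : ℝ) * yy m| ≤ (t.choose 3 : ℝ) * K := by
  intro t
  induction t with
  | zero => intro _ _; simp
  | succ t ih =>
    intro ht hw
    have h1 := ih (by omega) (fun l hl => hw l (by omega))
    have h2 := TAY_B m K t (by omega) (fun l hl => hw l (by omega))
    obtain ⟨n, hn⟩ : ∃ n, m = t + (n + 1) := ⟨m - t - 1, by omega⟩
    have e1 : m - t = n + 1 := by omega
    have e2 : m - (t + 1) = n := by omega
    rw [e1, TAY_xx] at h2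
    rw [e1] at h1
    rw [e2]
    have h4 : (((t + 1).choose 2 : ℕ) : ℝ) = (t : ℝ) + (t.choose 2 : ℝ) := by
      rw [Nat.choose_succ_succ' t 1, Nat.choose_one_right]
      push_cast
      ring
    have h5 : (((t + 1).choose 3 : ℕ) : ℝ) = (t.choose 2 : ℝ) + (t.choose 3 : ℝ) := by
      rw [Nat.choose_succ_succ' t 2]
      push_cast
      ring
    rw [h4, h5]
    have h3 : gb m - gb n - ((t + 1 : ℕ) : ℝ) * xx m - ((t : ℝ) + (t.choose 2 : ℝ)) * yy m =
        (gb m - gb (n + 1) - (t : ℝ) * xx m - (t.choose 2 : ℝ) * yy m) +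
          (gb (n + 1) - gb n - xx m - t * yy m) := by
      push_cast
      ring
    rw [h3]
    refine (abs_add_le _ _).trans ?_
    linarith

theorem TAY_gb0 : gb 0 = 1 := by
  unfold gb bl
  rw [Nat.zero_add, Nat.bell_one, Nat.bell_zero]
  norm_num

theorem TAY_half (hD : D23_stmt) (hO : OMF_stmt) (m j : ℕ) (hj : 0 < j) (hjm : j ≤ m)
    (hmj : m ≤ 2 * j) : gb m ≤ 2 * gb j := by
  have g1 : ∀ n, 1 ≤ gb n := fun n => by
    have := hD.2.2.2 0 n (Nat.zero_le n)
    rwa [TAY_gb0] at this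
  have h1 := hO.2.1 j m hjm
  unfold om at h1
  have hjg := g1 j
  have hmg := g1 m
  rw [div_le_div_iff₀ (by linarith) (by linarith)] at h1
  have h2 : (m : ℝ) ≤ 2 * j := by exact_mod_cast hmj
  have h3 : (0 : ℝ) < j := by exact_mod_cast hj
  have h4 : (j : ℝ) * gb m ≤ j * (2 * gb j) := by nlinarith
  exact le_of_mul_le_mul_left h4 h3

theorem TAY (hD : D23_stmt) (hO : OMF_stmt) : TAY_stmt := by
  have g1 : ∀ n, 1 ≤ gb n := fun n => by
    have := hD.2.2.2 0 n (Nat.zero_le n)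
    rwa [TAY_gb0] at this
  obtain ⟨M, hM⟩ := (hO.2.2.2.2.1.eventually_ge_atTop 1).exists_forall_of_atTop
  refine ⟨1000, by norm_num, max M 8, fun m hm t ht => ?_⟩
  have hm1 : M ≤ m := le_trans (le_max_left _ _) hm
  have hm8 : 8 ≤ m := le_trans (le_max_right _ _) hm
  have hg := g1 m
  have hg0 : 0 < gb m := by linarith
  rcases Nat.lt_or_ge m (2 * t) with h2 | h2
  · -- large `t`
    have hom := hM m hm1
    have hmr : (8 : ℝ) ≤ m := by exact_mod_cast hm8
    have hom2 : gb m ≤ m := by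
      unfold om at hom
      rwa [le_div_iff₀ hg0, one_mul] at hom
    obtain ⟨k, rfl⟩ : ∃ k, m = k + 2 := ⟨m - 2, by omega⟩
    have hxx := hD.1 (k + 1)
    have hyy := hD.2.1 k
    have hgk := g1 k
    have hgt := g1 (k + 2 - t)
    have hgmt := hD.2.2.2 (k + 2 - t) (k + 2) (Nat.sub_le _ _)
    have hhalf := TAY_half hD hO (k + 2) k (by omega) (by omega) (by omega)
    have htr : (t : ℝ) ≤ ((k + 2 : ℕ) : ℝ) := by exact_mod_cast ht
    have htr2 : ((k + 2 : ℕ) : ℝ) ≤ 2 * t := by exact_mod_cast h2.le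
    set g := gb (k + 2) with hgdef
    set mr : ℝ := ((k + 2 : ℕ) : ℝ) with hmrdef
    -- bound of `yy`
    have hy1 : |yy (k + 2)| ≤ 6 / g := by
      rw [le_div_iff₀ hg0]
      have : |yy (k + 2)| * g ≤ |yy (k + 2)| * (2 * gb k) :=
        mul_le_mul_of_nonneg_left hhalf (abs_nonneg _)
      linarith
    have hc2 : (t.choose 2 : ℝ) ≤ mr ^ 2 / 2 := by
      rw [Nat.cast_choose_two]
      have : (0 : ℝ) ≤ t := Nat.cast_nonneg t
      nlinarith
    have hc3 : mr ^ 3 / 128 ≤ (t.choose 3 : ℝ) := by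
      have h3 : t.choose 3 * 3 = t.choose 2 * (t - 2) := Nat.choose_succ_right_eq t 2
      have h4 : (t.choose 3 : ℝ) * 3 = (t : ℝ) * (t - 1) / 2 * (t - 2) := by
        rw [← Nat.cast_choose_two ℝ t]
        have h5 : ((t - 2 : ℕ) : ℝ) = (t : ℝ) - 2 := by
          rw [Nat.cast_sub (by omega)]
          norm_num
        rw [← h5]
        exact_mod_cast h3
      have h6 : mr / 2 ≤ (t : ℝ) := by linarith
      have h7 : mr * (3 / 8) ≤ (t : ℝ) - 1 := by linarith
      have h8 : mr / 4 ≤ (t : ℝ) - 2 := by linarith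
      have h9 : mr / 2 * (mr * (3 / 8)) ≤ (t : ℝ) * (t - 1) :=
        mul_le_mul h6 h7 (by positivity) (by linarith)
      have h10 : mr / 2 * (mr * (3 / 8)) * (mr / 4) ≤ (t : ℝ) * (t - 1) * (t - 2) :=
        mul_le_mul h9 h8 (by positivity) (by nlinarith)
      nlinarith
    have hE : |g - gb (k + 2 - t) - (t : ℝ) * xx (k + 2) - (t.choose 2 : ℝ) * yy (k + 2)| ≤
        g + mr + mr ^ 2 / 2 * (6 / g) := by
      have a1 : |(t.choose 2 : ℝ) * yy (k + 2)| ≤ mr ^ 2 / 2 * (6 / g) := by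
        rw [abs_mul, abs_of_nonneg (Nat.cast_nonneg _)]
        exact mul_le_mul hc2 hy1 (abs_nonneg _) (by positivity)
      have a2 : |(t : ℝ) * xx (k + 2)| ≤ mr := by
        have hx0 : 0 < xx (k + 2) := hxx.1
        have hx1 : xx (k + 2) ≤ 1 := hxx.2
        rw [abs_mul, abs_of_nonneg (Nat.cast_nonneg _), abs_of_pos hx0]
        have : (0 : ℝ) ≤ t := Nat.cast_nonneg t
        nlinarith
      have a3 : |g - gb (k + 2 - t)| ≤ g := by
        rw [abs_of_nonneg (by linarith)]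
        linarith
      calc |g - gb (k + 2 - t) - (t : ℝ) * xx (k + 2) - (t.choose 2 : ℝ) * yy (k + 2)|
          ≤ |g - gb (k + 2 - t) - (t : ℝ) * xx (k + 2)| + |(t.choose 2 : ℝ) * yy (k + 2)| :=
            abs_sub _ _
        _ ≤ |g - gb (k + 2 - t)| + |(t : ℝ) * xx (k + 2)| + |(t.choose 2 : ℝ) * yy (k + 2)| := by
            gcongr
            exact abs_sub _ _
        _ ≤ g + mr + mr ^ 2 / 2 * (6 / g) := by linarith
    refine hE.trans ?_
    have hb1 : mr ≤ mr ^ 2 / g := by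
      rw [le_div_iff₀ hg0]
      nlinarith
    have hb2 : g + mr + mr ^ 2 / 2 * (6 / g) ≤ 5 * (mr ^ 2 / g) := by
      have : mr ^ 2 / 2 * (6 / g) = 3 * (mr ^ 2 / g) := by ring
      rw [this]
      linarith
    refine hb2.trans ?_
    have hb3 : 5 * (mr ^ 2 / g) = 5 * (mr ^ 2 * g) / g ^ 2 := by
      field_simp
    rw [hb3]
    apply div_le_div_of_nonneg_right _ (by positivity)
    have hb4 : mr ^ 2 * g ≤ mr ^ 3 := by nlinarith [sq_nonneg mr]
    nlinarith
  · -- small `t`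
    have hK : ∀ l, l + 3 ≤ t → |ww (m - l)| ≤ 244 / gb m ^ 2 := by
      intro l hl
      obtain ⟨n, hn⟩ : ∃ n, m = l + (n + 3) := ⟨m - l - 3, by omega⟩
      have e1 : m - l = n + 3 := by omega
      rw [e1, le_div_iff₀ (by positivity)]
      have hw := hD.2.2.1 n
      have hh := TAY_half hD hO m n (by omega) (by omega) (by omega)
      have hsq : gb m ^ 2 ≤ 4 * gb n ^ 2 := by
        have := g1 n
        nlinarith
      have : |ww (n + 3)| * gb m ^ 2 ≤ |ww (n + 3)| * (4 * gb n ^ 2) :=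
        mul_le_mul_of_nonneg_left hsq (abs_nonneg _)
      linarith
    refine (TAY_C m _ t ht hK).trans ?_
    have h3 : (t.choose 3 : ℝ) * (244 / gb m ^ 2) = 244 * (t.choose 3 : ℝ) / gb m ^ 2 := by ring
    rw [h3]
    apply div_le_div_of_nonneg_right _ (by positivity)
    have : (0 : ℝ) ≤ (t.choose 3 : ℝ) := Nat.cast_nonneg _
    linarith

end Pool.Agent.helper34.AC
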